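import Pool.Agent.Helper34.Bw.NecA2
import Pool.Agent.Helper34.Bw.NecB
import Pool.Agent.Helper34.Bw.Power

set_option autoImplicit false

namespace Pool.Agent.Results.MP_3bea3b_an.Characterization

open Complex Metric Set Filter Topology
open Pool.Agent.Helper34.Bw

/-- `f` is bounded on the open unit disc. -/
def BddDisc (f : ℂ → ℂ) : Prop := ∃ M : ℝ, ∀ z ∈ ball (0:ℂ) 1, ‖f z‖ ≤ M

/-- Property (P): for every `f ∈ B_ω ∩ H^∞` and every inner `Θ` the conditions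
(i) `fΘ ∈ B_ω ∩ H^∞`, (ii) `(2_ε)` for some `ε ∈ (0,1)`, (iii) `(2_ε)` for every `ε ∈ (0,1)` are
equivalent. -/
def PropertyP (ω : ℝ → ℝ) : Prop :=
  ∀ f : ℂ → ℂ, InB ω f ∧ BddDisc f → ∀ Θ : ℂ → ℂ, IsInner Θ →
    List.TFAE [InB ω (fun z => f z * Θ z) ∧ BddDisc (fun z => f z * Θ z),
      ∃ ε ∈ Set.Ioo (0:ℝ) 1, SFinite ω f Θ ε,
      ∀ ε ∈ Set.Ioo (0:ℝ) 1, SFinite ω f Θ ε]

lemma bdd_mul {f Θ : ℂ → ℂ} (hf : BddDisc f) (hΘ : IsInner Θ) : BddDisc (fun z => f z * Θ z) := by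
  obtain ⟨M, hM⟩ := hf
  refine ⟨M, fun z hz => ?_⟩
  have hz' : ‖z‖ < 1 := by simpa using hz
  rw [norm_mul]
  have h1 := hM z hz
  have h2 := hΘ.norm_le_one hz'
  have h3 := norm_nonneg (f z)
  nlinarith

/-- a bounded analytic function is a Bloch function -/
lemma bloch_of_bdd {h : ℂ → ℂ} (hd : DifferentiableOn ℂ h (ball 0 1)) (hb : BddDisc h) :
    ∃ C : ℝ, 0 ≤ C ∧ ∀ z : ℂ, ‖z‖ < 1 → ‖deriv h z‖ * (1 - ‖z‖) ≤ C := by
  obtain ⟨M, hM⟩ := hb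
  have hM0 : 0 ≤ M := (norm_nonneg _).trans (hM 0 (by simp))
  refine ⟨M + 1, by linarith, fun z hz => ?_⟩
  have hM1 : 0 < M + 1 := by linarith
  set F : ℂ → ℂ := fun w => h w * ((M + 1 : ℝ) : ℂ)⁻¹ with hF
  have hn : ∀ w : ℂ, ‖h w * ((M + 1 : ℝ) : ℂ)⁻¹‖ = ‖h w‖ / (M + 1) := by
    intro w
    rw [norm_mul, norm_inv, Complex.norm_real, Real.norm_eq_abs, abs_of_pos hM1, div_eq_mul_inv]
  have h1 := schwarz_pick (F := F) (hd.mul_const _) (fun w hw => by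
    show ‖h w * ((M + 1 : ℝ) : ℂ)⁻¹‖ ≤ 1
    rw [hn, div_le_one hM1]
    linarith [hM w hw]) hz
  have h2 : deriv F z = deriv h z * ((M + 1 : ℝ) : ℂ)⁻¹ := by
    have h3 : DifferentiableAt ℂ h z := hd.differentiableAt (isOpen_ball.mem_nhds (by simpa using hz))
    exact (h3.hasDerivAt.mul_const _).deriv
  have h3 : ‖deriv F z‖ = ‖deriv h z‖ / (M + 1) := by
    rw [h2, norm_mul, norm_inv, Complex.norm_real, Real.norm_eq_abs, abs_of_pos hM1, div_eq_mul_inv]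
  rw [h3] at h1
  have h4 : (1 - ‖z‖^2) * (‖deriv h z‖ / (M + 1)) ≤ 1 := by
    have := sq_nonneg ‖F z‖
    linarith
  rw [mul_div_assoc', div_le_one hM1] at h4
  have h5 : 1 - ‖z‖ ≤ 1 - ‖z‖^2 := by nlinarith [norm_nonneg z]
  have h6 := mul_le_mul_of_nonneg_right h5 (norm_nonneg (deriv h z))
  linarith

theorem result (ω : ℝ → ℝ) (hω : IsModulus ω) :
    PropertyP ω ↔ (∃ c > 0, ∀ t ∈ Set.Ioo (0:ℝ) 1, c ≤ ω t) ∨ TwoSided ω := by
  rw [← twoSided_iff hω]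
  constructor
  · intro hP
    by_contra hcon
    push Not at hcon
    obtain ⟨hc, hTS⟩ := hcon
    by_cases ha : AlmostDecreasing ω
    · obtain ⟨f, Θ, ε, hf, hfb, hΘ, hε, hS, hn⟩ := nec_b hω ha (hTS ha)
      have h2 : ∃ ε ∈ Set.Ioo (0:ℝ) 1, SFinite ω f Θ ε := ⟨ε, hε, hS⟩
      have h1 : InB ω (fun z => f z * Θ z) ∧ BddDisc (fun z => f z * Θ z) :=
        ((hP f ⟨hf, hfb hc⟩ Θ hΘ).out 1 0).1 h2
      exact hn h1.1
    · obtain ⟨f, Θ, ε, hf, ⟨M, hM⟩, hΘ, hε, hS, hn⟩ := nec_a hω ha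
      have h2 : ∃ ε ∈ Set.Ioo (0:ℝ) 1, SFinite ω f Θ ε := ⟨ε, hε, hS⟩
      have h1 : InB ω (fun z => f z * Θ z) ∧ BddDisc (fun z => f z * Θ z) :=
        ((hP f ⟨hf, M, fun z hz => hM z (by simpa using hz)⟩ Θ hΘ).out 1 0).1 h2
      exact hn h1.1
  · rintro (⟨c, hc0, hc⟩ | ⟨ha, hb⟩)
    · rintro f ⟨hf, hfb⟩ Θ hΘ
      have hb' := bdd_mul hfb hΘ
      have hd : DifferentiableOn ℂ (fun z => f z * Θ z) (ball 0 1) := hf.1.mul hΘ.1
      obtain ⟨C, hC0, hC⟩ := bloch_of_bdd hd hb'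
      have h1 : InB ω (fun z => f z * Θ z) := by
        refine ⟨hd, C / c, 0, one_pos, fun z hz0 hz => (hC z hz).trans ?_⟩
        have h2 := hc (1 - ‖z‖) ⟨by linarith, by linarith⟩
        calc C = C / c * c := by field_simp
          _ ≤ C / c * ω (1 - ‖z‖) := mul_le_mul_of_nonneg_left h2 (by positivity)
      have h2 : ∀ ε : ℝ, SFinite ω f Θ ε := by
        intro ε
        obtain ⟨M, hM⟩ := hfb
        have hM0 : 0 ≤ M := (norm_nonneg _).trans (hM 0 (by simp))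
        refine ⟨M / c, fun z hz0 hz _ => ?_⟩
        have h3 := hc (1 - ‖z‖) ⟨by linarith, by linarith [norm_pos_iff.2 hz0]⟩
        exact div_le_div₀ hM0 (hM z (by simpa using hz)) hc0 h3
      tfae_have 1 → 3 := fun _ ε _ => h2 ε
      tfae_have 3 → 2 := fun h3 => ⟨1/2, by norm_num, h3 (1/2) (by norm_num)⟩
      tfae_have 2 → 1 := fun _ => ⟨h1, hb'⟩
      tfae_finish
    · rintro f ⟨hf, hfb⟩ Θ hΘ
      tfae_have 1 → 3 := fun h1 ε hε => suff_i_iii hω hb hf hΘ h1.1 hε.2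
      tfae_have 3 → 2 := fun h3 => ⟨1/2, by norm_num, h3 (1/2) (by norm_num)⟩
      tfae_have 2 → 1 := by
        rintro ⟨ε, hε, h2⟩
        exact ⟨suff_ii_i hω ha hb hf hΘ hε.1 hε.2 h2, bdd_mul hfb hΘ⟩
      tfae_finish

end Pool.Agent.Results.MP_3bea3b_an.Characterization
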